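import Mathlib

/-! Virtual braid groups, and virtual string links as Gauss diagrams modulo Reidemeister moves. -/

namespace Pool.Agent.MP_e4304e_gt

open Equiv

/-- Generators of the virtual braid group on `n + 1` strands: `σ i` is the classical and `ρ i`
the virtual crossing of the strands in positions `i` and `i + 1`. -/
inductive Gen (n : ℕ) : Type
  | σ (i : Fin n) : Gen n
  | ρ (i : Fin n) : Gen n

open Gen FreeGroup in
/-- The standard relators of the virtual braid group. -/
inductive IsRelator {n : ℕ} : FreeGroup (Gen n) → Prop
  | braid_σ (i j : Fin n) (h : j.val = i.val + 1) :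
      IsRelator (of (σ i) * of (σ j) * of (σ i) * (of (σ j) * of (σ i) * of (σ j))⁻¹)
  | braid_ρ (i j : Fin n) (h : j.val = i.val + 1) :
      IsRelator (of (ρ i) * of (ρ j) * of (ρ i) * (of (ρ j) * of (ρ i) * of (ρ j))⁻¹)
  | braid_mixed (i j : Fin n) (h : j.val = i.val + 1) :
      IsRelator (of (ρ i) * of (ρ j) * of (σ i) * (of (σ j) * of (ρ i) * of (ρ j))⁻¹)
  | comm_σ (i j : Fin n) (h : i.val + 2 ≤ j.val ∨ j.val + 2 ≤ i.val) :
      IsRelator (of (σ i) * of (σ j) * (of (σ j) * of (σ i))⁻¹)
  | comm_ρ (i j : Fin n) (h : i.val + 2 ≤ j.val ∨ j.val + 2 ≤ i.val) :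
      IsRelator (of (ρ i) * of (ρ j) * (of (ρ j) * of (ρ i))⁻¹)
  | comm_mixed (i j : Fin n) (h : i.val + 2 ≤ j.val ∨ j.val + 2 ≤ i.val) :
      IsRelator (of (σ i) * of (ρ j) * (of (ρ j) * of (σ i))⁻¹)
  | sq_ρ (i : Fin n) : IsRelator (of (ρ i) * of (ρ i))

/-- The virtual braid group on `n + 1` strands. -/
abbrev VirtualBraidGroup (n : ℕ) : Type :=
  PresentedGroup {r : FreeGroup (Gen n) | IsRelator r}

/-- The element of the virtual braid group represented by a word in the generators
(`true`) and their inverses (`false`). -/
def braidOfWord {n : ℕ} (w : List (Gen n × Bool)) : VirtualBraidGroup n :=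
  PresentedGroup.mk _ (FreeGroup.mk w)

/-- The transposition `(i, i + 1)` induced by `σ i` and by `ρ i`. -/
def transposition {n : ℕ} : Gen n → Perm (Fin (n + 1))
  | .σ i => swap i.castSucc i.succ
  | .ρ i => swap i.castSucc i.succ

theorem relator_transposition {n : ℕ} (r : FreeGroup (Gen n)) (h : IsRelator r) :
    FreeGroup.lift transposition r = 1 := by
  cases h <;>
    simp only [map_mul, map_inv, FreeGroup.lift_apply_of, transposition, mul_inv_eq_one,
      swap_mul_self] <;>
    ext x <;>
    simp only [Perm.mul_apply, swap_apply_def, Fin.ext_iff, Fin.val_castSucc, Fin.val_succ,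
      apply_ite Fin.val] <;>
    split_ifs <;> omega

/-- The virtual pure braid group: the kernel of the natural map onto the symmetric group. -/
def VirtualPureBraidGroup (n : ℕ) : Subgroup (VirtualBraidGroup n) :=
  (PresentedGroup.toGroup (f := transposition) relator_transposition).ker

/-- A classical crossing (an arrow of a Gauss diagram): a name and a sign. -/
abbrev Arrow : Type := ℕ × Bool

/-- The passage of a strand through a crossing, over (`true`) or under (`false`). -/
abbrev Endpoint : Type := Arrow × Bool

def overAt (a : Arrow) : Endpoint := (a, true)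

def underAt (a : Arrow) : Endpoint := (a, false)

/-- For each of `m` oriented strands, the sequence of passages through crossings. -/
abbrev Diagram (m : ℕ) : Type := Fin m → List Endpoint

/-- Every crossing that occurs is passed exactly once over and exactly once under. -/
structure IsGauss {m : ℕ} (D : Diagram m) : Prop where
  nodup : ∀ i, (D i).Nodup
  disjoint : ∀ i j e, e ∈ D i → e ∈ D j → i = j
  paired : ∀ a, (∃ i, overAt a ∈ D i) ↔ (∃ i, underAt a ∈ D i)

/-- `x` and `y` are consecutive on a strand, in this order if `o` is `true` and in the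
opposite order otherwise. -/
def Consecutive {m : ℕ} (D : Diagram m) (x y : Endpoint) (o : Bool) : Prop :=
  ∃ i, (if o then [x, y] else [y, x]) <:+: D i

/-- Delete the crossings listed in `S`. -/
def delete {m : ℕ} (D : Diagram m) (S : List Arrow) : Diagram m :=
  fun i => (D i).filter fun e => e.1 ∉ S

/-- Renaming of crossings, and all oriented versions of the three Reidemeister moves. In the
third move `a`, `b`, `c` are the top-middle, top-bottom and middle-bottom crossings. -/
inductive Move {m : ℕ} : Diagram m → Diagram m → Prop
  | rename (D : Diagram m) (f : Arrow → Arrow) (inj : Function.Injective f)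
      (sign : ∀ a, (f a).2 = a.2) : Move D fun i => (D i).map (Prod.map f id)
  | R1 (D : Diagram m) (a : Arrow) (o : Bool) (adj : Consecutive D (overAt a) (underAt a) o) :
      Move D (delete D [a])
  | R2 (D : Diagram m) (a b : Arrow) (o o' : Bool) (sign : a.2 ≠ b.2)
      (adjOver : Consecutive D (overAt a) (overAt b) o)
      (adjUnder : Consecutive D (underAt a) (underAt b) o') : Move D (delete D [a, b])
  | R3 (D : Diagram m) (a b c : Arrow) (oT oM oB : Bool) (ab : a ≠ b) (ac : a ≠ c) (bc : b ≠ c)
      (top : Consecutive D (overAt a) (overAt b) oT)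
      (middle : Consecutive D (underAt a) (overAt c) oM)
      (bottom : Consecutive D (underAt b) (underAt c) oB)
      (sign₁ : a.2 = b.2 ↔ oM = oB) (sign₂ : b.2 = c.2 ↔ oT = oM) :
      Move D fun i => (D i).map
        (swap (overAt a) (overAt b) * swap (underAt a) (overAt c) * swap (underAt b) (underAt c))

/-- Virtual string links on `m` strands: Gauss diagrams modulo Reidemeister moves. -/
def VirtualStringLink (m : ℕ) : Type :=
  Quot fun D D' : {D : Diagram m // IsGauss D} => Move D.1 D'.1

/-- The Gauss diagram of a braid word; `π p` is the strand now in position `p` and `t` is the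
name of the next crossing. In `σ i` (positive crossing) the left strand passes over, in its
inverse (negative crossing) it passes under; virtual crossings only permute positions. -/
def gaussFrom {n : ℕ} : List (Gen n × Bool) → Perm (Fin (n + 1)) → ℕ → Diagram (n + 1)
  | [], _, _ => fun _ => []
  | (.ρ i, _) :: w, π, t => gaussFrom w (π * swap i.castSucc i.succ) t
  | (.σ i, ε) :: w, π, t => fun s =>
      (if s = π i.castSucc then [((t, ε), ε)] else if s = π i.succ then [((t, ε), !ε)] else []) ++
        gaussFrom w (π * swap i.castSucc i.succ) (t + 1) s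

def gaussDiagram {n : ℕ} (w : List (Gen n × Bool)) : Diagram (n + 1) := gaussFrom w 1 0

end Pool.Agent.MP_e4304e_gt
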